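import Pool.Agent.MWLE.StmtsA
import Pool.Agent.Helper77_MWF.CTT
import Pool.Agent.Helper27_MWF.POW
import Pool.Agent.Helper42_MWF.SIM

/-! Row ORD of squad MWLE: order of two light letters. -/

namespace Pool.Agent.MWLE.H53

open Pool.Agent.Helper14_MV Pool.Agent.Helper2_MV
open Pool.Agent.MWK (pre Gw)
open Pool.Agent.MWF (Ap gaml dbl)
open Pool.Agent.MWGN (nn Gz E0 P0 A0 Tau gh)

lemma sim : MWF.SimStmt := MWF.H42.sim MWF.H27.pow (MWF.H77.ctt MWF.H27.pow)
lemma ctt : MWF.CttStmt := MWF.H77.ctt MWF.H27.pow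

/-- the conditions of the row -/
structure HH (w : List ℕ) (a b s t : ℕ) : Prop where
  s1 : w.count s = 1
  t1 : w.count t = 1
  a2 : 2 ≤ w.count a
  b2 : 2 ≤ w.count b
  st : nn w s t = 1
  as : nn w a s = 1
  bs : nn w b s = 1
  bt : nn w b t = 1
  at' : nn w a t = w.count a

/-- the substitution -/
def fs (a b s t : ℕ) (c : ℕ) : List ℕ :=
  if c = a then [0] else if c = b then [1] else if c = s then [2] else if c = t then [3] else []

lemma fs_nil {a b s t : ℕ} : ∀ {Q : List ℕ}, a ∉ Q → b ∉ Q → s ∉ Q → t ∉ Q →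
    Q.flatMap (fs a b s t) = []
  | [], _, _, _, _ => rfl
  | c :: Q, ha, hb, hs, ht => by
    simp only [List.mem_cons, not_or] at ha hb hs ht
    rw [List.flatMap_cons, fs_nil ha.2 hb.2 hs.2 ht.2]
    simp [fs, Ne.symm ha.1, Ne.symm hb.1, Ne.symm hs.1, Ne.symm ht.1]

lemma fs_a {a b s t : ℕ} : ∀ {Q : List ℕ}, b ∉ Q → s ∉ Q → t ∉ Q →
    Q.flatMap (fs a b s t) = List.replicate (Q.count a) 0
  | [], _, _, _ => rfl
  | c :: Q, hb, hs, ht => by
    simp only [List.mem_cons, not_or] at hb hs ht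
    rw [List.flatMap_cons, fs_a hb.2 hs.2 ht.2, List.count_cons]
    by_cases h : c = a
    · subst h
      simp [fs, List.replicate_succ]
    · simp [fs, h, Ne.symm hb.1, Ne.symm hs.1, Ne.symm ht.1]

lemma fs_b {a b s t : ℕ} (hab : a ≠ b) : ∀ {Q : List ℕ}, a ∉ Q → s ∉ Q → t ∉ Q →
    Q.flatMap (fs a b s t) = List.replicate (Q.count b) 1
  | [], _, _, _ => rfl
  | c :: Q, ha, hs, ht => by
    simp only [List.mem_cons, not_or] at ha hs ht
    rw [List.flatMap_cons, fs_b hab ha.2 hs.2 ht.2, List.count_cons]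
    by_cases h : c = b
    · subst h
      simp [fs, Ne.symm hab, List.replicate_succ]
    · simp [fs, h, Ne.symm ha.1, Ne.symm hs.1, Ne.symm ht.1]

/-- decomposition of a word with two letters which occur once -/
lemma two {P : List ℕ} {a b : ℕ} (hab : a ≠ b) (ha : P.count a = 1) (hb : P.count b = 1)
    (h : a ∈ pre P b) : ∃ A B C, P = A ++ a :: (B ++ b :: C) ∧ a ∉ A ∧ a ∉ B ∧ a ∉ C ∧
      b ∉ A ∧ b ∉ B ∧ b ∉ C := by
  have hbP : b ∈ P := List.count_pos_iff.1 (by omega)
  obtain ⟨C, hC⟩ := MWK.mem_split hbP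
  obtain ⟨B, hB⟩ := MWK.mem_split h
  have e : P = pre (pre P b) a ++ a :: (B ++ b :: C) := by
    conv_lhs => rw [hC, hB]
    simp
  generalize pre (pre P b) a = A at e
  have c1 := ha
  have c2 := hb
  rw [e] at c1 c2
  simp only [List.count_append, List.count_cons, beq_self_eq_true, if_true] at c1 c2
  have n1 : (b == a) = false := by simpa using Ne.symm hab
  have n2 : (a == b) = false := by simpa using hab
  rw [n1] at c1
  rw [n2] at c2
  simp only [Bool.false_eq_true, if_false] at c1 c2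
  refine ⟨A, B, C, e, ?_, ?_, ?_, ?_, ?_, ?_⟩ <;> rw [← List.count_eq_zero] <;> omega

lemma cnt (x c : ℕ) (l : List ℕ) : (c :: l).count x = (if c = x then 1 else 0) + l.count x := by
  rw [List.count_cons, Nat.add_comm]
  congr 1
  by_cases h : c = x <;> simp [h]

/-- shape of the image -/
lemma shape {w : List ℕ} {a b s t : ℕ} (hab : a ≠ b) (hst : s ≠ t) (H : HH w a b s t) :
    ∃ i j, 1 ≤ i ∧ 1 ≤ j ∧
      ((a ∈ pre w b ∧ w.flatMap (fs a b s t) =
        0 :: 1 :: 2 :: (List.replicate i 0 ++ 3 :: List.replicate j 1)) ∨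
       (a ∉ pre w b ∧ w.flatMap (fs a b s t) =
        1 :: 0 :: 2 :: (List.replicate i 0 ++ 3 :: List.replicate j 1))) := by
  have hsa : s ≠ a := by
    rintro rfl
    have h1 := H.s1
    have h2 := H.a2
    omega
  have hsb : s ≠ b := by
    rintro rfl
    have h1 := H.s1
    have h2 := H.b2
    omega
  have hta : t ≠ a := by
    rintro rfl
    have h1 := H.t1
    have h2 := H.a2
    omega
  have htb : t ≠ b := by
    rintro rfl
    have h1 := H.t1
    have h2 := H.b2
    omega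
  have htw : t ∈ w := List.count_pos_iff.1 (by rw [H.t1]; exact Nat.one_pos)
  have hsp : s ∈ pre w t := List.count_pos_iff.1 (by
    have := H.st
    unfold nn at this
    rw [this]
    exact Nat.one_pos)
  obtain ⟨R, hR⟩ := MWK.mem_split htw
  obtain ⟨Q, hQ⟩ := MWK.pre_mono hsp
  have hw : w = pre w s ++ s :: (Q ++ t :: R) := by
    conv_lhs => rw [hR, hQ]
    simp
  have h1 := H.s1
  have h2 := H.t1
  have h3 := H.a2
  have h4 := H.b2
  have h5 := H.st
  have h6 := H.as
  have h7 := H.bs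
  have h8 := H.bt
  have h9 := H.at'
  have h10 : t ∉ pre w t := MWK.not_mem_pre w t
  have h11 : s ∉ pre w s := MWK.not_mem_pre w s
  unfold nn at h5 h6 h7 h8 h9
  rw [hQ] at h5 h8 h9 h10
  obtain ⟨P, hP⟩ : ∃ P, P = pre w s := ⟨_, rfl⟩
  rw [← hP] at hw h5 h6 h7 h8 h9 h10 h11
  rw [hw] at h1 h2 h3 h4 h9
  have h12 : (P ++ s :: Q).count t = 0 := List.count_eq_zero.2 h10
  have h13 : P.count s = 0 := List.count_eq_zero.2 h11
  simp only [List.count_append, cnt, if_true, if_neg hsa, if_neg hsb, if_neg hta, if_neg htb,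
    if_neg hst, if_neg (Ne.symm hst)] at h1 h2 h3 h4 h5 h8 h9 h12
  have q1 : b ∉ Q := List.count_eq_zero.1 (by omega)
  have q2 : s ∉ Q := List.count_eq_zero.1 (by omega)
  have q3 : t ∉ Q := List.count_eq_zero.1 (by omega)
  have r1 : a ∉ R := List.count_eq_zero.1 (by omega)
  have r2 : s ∉ R := List.count_eq_zero.1 (by omega)
  have r3 : t ∉ R := List.count_eq_zero.1 (by omega)
  have p1 : t ∉ P := List.count_eq_zero.1 (by omega)
  have e1 : w.flatMap (fs a b s t) = P.flatMap (fs a b s t) ++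
      2 :: (List.replicate (Q.count a) 0 ++ 3 :: List.replicate (R.count b) 1) := by
    conv_lhs => rw [hw]
    rw [List.flatMap_append, List.flatMap_cons, List.flatMap_append, List.flatMap_cons,
      fs_a q1 q2 q3, fs_b hab r1 r2 r3]
    have e2 : fs a b s t s = [2] := by simp [fs, hsa, hsb]
    have e3 : fs a b s t t = [3] := by simp [fs, hta, htb, Ne.symm hst]
    rw [e2, e3]
    simp
  have haP : a ∈ P := List.count_pos_iff.1 (by omega)
  have hbP : b ∈ P := List.count_pos_iff.1 (by omega)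
  have e4 : pre w b = pre P b := MWK.pre_of_prefix hw hbP
  have fa : fs a b s t a = [0] := by simp [fs]
  have fb : fs a b s t b = [1] := by simp [fs, Ne.symm hab]
  refine ⟨Q.count a, R.count b, by omega, by omega, ?_⟩
  rcases MWK.pre_total haP hab with h | h
  · left
    refine ⟨by rw [e4]; exact h, ?_⟩
    obtain ⟨A, B, C, e, a1, a2, a3, b1, b2, b3⟩ := two hab h6 h7 h
    rw [e1]
    have sP : s ∉ A ∧ s ∉ B ∧ s ∉ C := by
      rw [e] at h11
      simp only [List.mem_append, List.mem_cons, not_or] at h11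
      exact ⟨h11.1, h11.2.2.1, h11.2.2.2.2⟩
    have tP : t ∉ A ∧ t ∉ B ∧ t ∉ C := by
      rw [e] at p1
      simp only [List.mem_append, List.mem_cons, not_or] at p1
      exact ⟨p1.1, p1.2.2.1, p1.2.2.2.2⟩
    rw [e, List.flatMap_append, List.flatMap_cons, List.flatMap_append, List.flatMap_cons,
      fs_nil a1 b1 sP.1 tP.1, fs_nil a2 b2 sP.2.1 tP.2.1, fs_nil a3 b3 sP.2.2 tP.2.2, fa, fb]
    rfl
  · right
    refine ⟨by rw [e4]; exact MWK.pre_asymm h, ?_⟩
    obtain ⟨A, B, C, e, b1, b2, b3, a1, a2, a3⟩ := two (Ne.symm hab) h7 h6 h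
    rw [e1]
    have sP : s ∉ A ∧ s ∉ B ∧ s ∉ C := by
      rw [e] at h11
      simp only [List.mem_append, List.mem_cons, not_or] at h11
      exact ⟨h11.1, h11.2.2.1, h11.2.2.2.2⟩
    have tP : t ∉ A ∧ t ∉ B ∧ t ∉ C := by
      rw [e] at p1
      simp only [List.mem_append, List.mem_cons, not_or] at p1
      exact ⟨p1.1, p1.2.2.1, p1.2.2.2.2⟩
    rw [e, List.flatMap_append, List.flatMap_cons, List.flatMap_append, List.flatMap_cons,
      fs_nil a1 b1 sP.1 tP.1, fs_nil a2 b2 sP.2.1 tP.2.1, fs_nil a3 b3 sP.2.2 tP.2.2, fa, fb]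
    rfl

section
variable {β : FIC}

lemma tr {u v w : List ℕ} (h : RR β u v) (h' : RR β v w) : RR β u w := β.trans h h'

lemma gmw (hg : RR β [0, 1, 0] [0, 1, 0, 0]) (c : ℕ) (u : List ℕ) :
    RR β (c :: (u ++ [c])) (c :: (u ++ [c, c])) := by
  have h := hg.sub (fun d => if d = 0 then [c] else u)
  simpa using h

lemma gmr (hg : RR β [0, 1, 0] [0, 1, 0, 0]) (c : ℕ) (u : List ℕ) : ∀ i : ℕ, 1 ≤ i →
    RR β (c :: (u ++ List.replicate i c)) (c :: (u ++ [c])) := by
  intro i hi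
  induction i with
  | zero => omega
  | succ i ih =>
    rcases Nat.eq_zero_or_pos i with h | h
    · subst h
      exact RR.refl _
    · obtain ⟨r, rfl⟩ : ∃ r, i = r + 1 := ⟨i - 1, by omega⟩
      have h2 := (gmw hg c u).append (RR.refl (β := β) (List.replicate r c))
      have e1 : c :: (u ++ [c]) ++ List.replicate r c = c :: (u ++ List.replicate (r + 1) c) := by
        simp [List.replicate_succ]
      have e2 : c :: (u ++ [c, c]) ++ List.replicate r c =
          c :: (u ++ List.replicate (r + 1 + 1) c) := by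
        simp [List.replicate_succ]
      rw [e1, e2] at h2
      exact tr h2.symm (ih h)

lemma nf1 (hg : RR β [0, 1, 0] [0, 1, 0, 0]) {i j : ℕ} (hi : 1 ≤ i) (hj : 1 ≤ j) :
    RR β (0 :: 1 :: 2 :: (List.replicate i 0 ++ 3 :: List.replicate j 1)) [0, 1, 2, 0, 3, 1] := by
  have h1 := (gmr hg 0 [1, 2] i hi).append (RR.refl (β := β) (3 :: List.replicate j 1))
  have h2 := (RR.refl (β := β) [0]).append (gmr hg 1 [2, 0, 3] j hj)
  refine tr ?_ h2
  simpa using h1

lemma nf2 (hg : RR β [0, 1, 0] [0, 1, 0, 0]) {i j : ℕ} (hi : 1 ≤ i) (hj : 1 ≤ j) :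
    RR β (1 :: 0 :: 2 :: (List.replicate i 0 ++ 3 :: List.replicate j 1)) [1, 0, 2, 0, 3, 1] := by
  have h1 := (RR.refl (β := β) [1]).append
    ((gmr hg 0 [2] i hi).append (RR.refl (β := β) (3 :: List.replicate j 1)))
  have h2 := gmr hg 1 [0, 2, 0, 3] j hj
  refine tr ?_ h2
  simpa using h1

lemma keep (h1 : MWGN.OlrStmt) (hG : Gz β) (hE : ¬ E0 β) {w w' : List ℕ} (hw : RR β w w')
    {a b s t : ℕ} (hst : s ≠ t) (H : HH w a b s t) : HH w' a b s t := by
  have hA : Ap β := hG.gw.ap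
  have hc : ∀ c, 2 ≤ w.count c → 2 ≤ w'.count c := by
    intro c hc
    have m1 : c ∈ w := List.count_pos_iff.1 (by omega)
    have m2 : c ∈ w' := (ctt β hA w w' hw c).1 m1
    have m3 : 0 < w'.count c := List.count_pos_iff.2 m2
    by_contra h
    have m4 : w'.count c = 1 := by omega
    have m5 := sim β hA w' w hw.symm c m4
    omega
  have hsa : a ≠ s := by
    rintro rfl
    have h1 := H.s1
    have h2 := H.a2
    omega
  have hsb : b ≠ s := by
    rintro rfl
    have h1 := H.s1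
    have h2 := H.b2
    omega
  have hta : a ≠ t := by
    rintro rfl
    have h1 := H.t1
    have h2 := H.a2
    omega
  have htb : b ≠ t := by
    rintro rfl
    have h1 := H.t1
    have h2 := H.b2
    omega
  exact ⟨sim β hA w w' hw s H.s1, sim β hA w w' hw t H.t1, hc a H.a2, hc b H.b2,
    (h1 β hG.gw hE w w' hw s t H.t1 hst).2.1.1 H.st,
    (h1 β hG.gw hE w w' hw a s H.s1 hsa).2.1.1 H.as,
    (h1 β hG.gw hE w w' hw b s H.s1 hsb).2.1.1 H.bs,
    (h1 β hG.gw hE w w' hw b t H.t1 htb).2.1.1 H.bt,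
    (h1 β hG.gw hE w w' hw a t H.t1 hta).2.2.1 H.at'⟩

end

theorem ord (h1 : MWGN.OlrStmt) : OrdStmt := by
  intro β hG hE hk w w' hw a b s t hs ht hst hab ha hb hst1 has hbs hbt hat
  have H : HH w a b s t := ⟨hs, ht, ha, hb, hst1, has, hbs, hbt, hat⟩
  have H' : HH w' a b s t := keep h1 hG hE hw hst H
  obtain ⟨i, j, hi, hj, e⟩ := shape hab hst H
  obtain ⟨i', j', hi', hj', e'⟩ := shape hab hst H'
  have hs2 := hw.sub (fs a b s t)
  rcases e with ⟨m, e⟩ | ⟨m, e⟩ <;> rcases e' with ⟨m', e'⟩ | ⟨m', e'⟩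
  · exact ⟨fun _ => m', fun _ => m⟩
  · exfalso
    apply hk
    rw [e, e'] at hs2
    exact tr (nf1 hG.gw.gm hi hj).symm (tr hs2 (nf2 hG.gw.gm hi' hj'))
  · exfalso
    apply hk
    rw [e, e'] at hs2
    exact (tr (nf2 hG.gw.gm hi hj).symm (tr hs2 (nf1 hG.gw.gm hi' hj'))).symm
  · exact ⟨fun h => absurd h m, fun h => absurd h m'⟩

end Pool.Agent.MWLE.H53
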